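import Mathlib

set_option autoImplicit false

namespace Pool.Agent.Results.MP_aad82b_nt.Example

/-- There is an integer `n ≥ 2` with last decimal digit `9` and `2^(n-2) ≡ 1 (mod n)`. -/
theorem result : ∃ n : ℕ, 2 ≤ n ∧ n % 10 = 9 ∧ 2 ^ (n - 2) ≡ 1 [MOD n] := by
  refine ⟨1210344599, by norm_num, by norm_num, ?_⟩
  have h : (2 : ZMod 1210344599) ^ 1210344597 = 1 := by
    reduce_mod_char
  have h2 : (1210344599 - 2 : ℕ) = 1210344597 := by norm_num
  rw [h2, ← ZMod.natCast_eq_natCast_iff, Nat.cast_pow, Nat.cast_one, Nat.cast_ofNat]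
  exact h

end Pool.Agent.Results.MP_aad82b_nt.Example
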